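import Pool.Agent.J6H27.PL.Low
import Pool.Agent.J6H27.PL.Up
import Pool.Agent.J6H7.Chain.GFin

/-!
# P and POLYLOGSPACE are incomparable for devices with few non-monotone questions

The nonuniform devices of P are circuits, and the nonuniform devices of POLYLOGSPACE are networks
of quasi-polynomial size. All devices are monotone, except for few non-monotone gates, questions or
negated variables.

* Path systems with `n` elements and `n` rules have monotone circuits with at most `3 * n` gates,
  but need networks of size `2 ^ (n ^ c)`, also if there are few non-monotone questions. So they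
  are in P, and not in POLYLOGSPACE.
* For each `k` between `1 / c` and `n ^ c`, the `k`-clique problem on `n` vertices has undirected
  monotone networks of size `n ^ (k + 2)`, but needs circuits of size `n ^ (c * k)`, also if there
  are few non-monotone gates. For instance if `k = (log n) ^ j`, then it is in POLYLOGSPACE, and not
  in P.
-/

set_option autoImplicit false

namespace Pool.Agent.Results.MP_9dcf40_lc.FewNegationsIncomparable

open Pool.Agent.J6H7.Chain Pool.Agent.H520R2 Pool.Agent.H520R2.NM Pool.Agent.J6H27.PL Filter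

/-- The nonuniform space complexity of `F` is high: `F` needs size `s`

* for every strategy over monotone directed networks in which the product of the numbers `w + 1`
  over all the rounds of `w` questions is at most `p`,
* for every directed network in which fewer than `p` variables are negated. -/
def SpaceHard (p s : ℝ) {ι : Type} (F : (ι → Bool) → Prop) : Prop :=
  (∀ l : List ℕ, (((l.map (· + 1)).prod : ℕ) : ℝ) ≤ p →
    ∀ (m : ℕ) (V : Type) (S : Strategy (Net V ι) l), S.All (fun d => d.size ≤ m) →
      (∀ x, S.run Net.Directed x ↔ F x) → s ≤ m) ∧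
  (∀ (V : Type) (N : Net V (ι ⊕ ι)) (Z : Finset ι), ((Z.card + 1 : ℕ) : ℝ) ≤ p →
    (∀ e ∈ N.wires, ∀ i, e.2.2 = Sum.inr i → i ∈ Z) → (∀ x, N.Directed (lit x) ↔ F x) →
    s ≤ N.size)

/-- The nonuniform time complexity of `F` is high: `F` needs `s` AND and OR gates for every circuit
whose arbitrary further gates have numbers `w` of inputs such that the product of the numbers
`w + 1` is at most `p`. -/
def TimeHard (p s : ℝ) {ι : Type} (F : (ι → Bool) → Prop) : Prop :=
  ∀ (N : ℕ) (C : Circuit ι N) (out : Wire ι N), (((C.fanins.map (· + 1)).prod : ℕ) : ℝ) ≤ p →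
    (∀ x, out.eval x (C.vals x) = true ↔ F x) → s ≤ C.size

/-- The graph on the vertices `0, ..., n - 1` whose edges are the pairs `e` with `x e = true` has a
clique with `k` vertices. -/
def HasClique (n k : ℕ) (x : Sym2 (Fin n) → Bool) : Prop :=
  ¬ (SimpleGraph.fromEdgeSet {e | x e = true}).CliqueFree k

open Classical in
/-- **P and POLYLOGSPACE are incomparable for devices with few non-monotone questions.** For every
`ε > 0` there is a `c > 0` such that for all sufficiently large `n`:

* for some path system with `n` elements and `n` different rules, the question whether `t` can be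
  derived from `s` with a given set of the rules is answered by a monotone circuit with at most
  `3 * n` gates, but networks need size `2 ^ (n ^ c)`, if the product of the numbers `w + 1` over
  all the rounds of `w` non-monotone questions is at most `n ^ (1 - ε)`,
* for all `k` with `1 / c ≤ k ≤ n ^ c`, the question whether a graph with `n` vertices has a clique
  with `k` vertices is answered by a monotone network without free wires of size `n ^ (k + 2)`
  (directed or undirected), but circuits need size `n ^ (c * k)`, if the product of the numbers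
  `w + 1` over all the arbitrary gates with `w` inputs is at most `n ^ (2 - ε)`. -/
theorem result (ε : ℝ) (hε : 0 < ε) : ∃ c : ℝ, 0 < c ∧ ∀ᶠ n : ℕ in atTop,
    (∃ (R : Fin n → Fin n × Fin n × Fin n) (s t : Fin n), Function.Injective R ∧
      MComp (VB (Fin n)) (3 * n) (fun x => decide (Derive R s t x)) ∧
      SpaceHard ((n : ℝ) ^ (1 - ε)) ((2 : ℝ) ^ ((n : ℝ) ^ c)) (Derive R s t)) ∧
    (∀ k : ℕ, 1 / c ≤ k → (k : ℝ) ≤ (n : ℝ) ^ c →
      (∃ (V : Type) (M : Net V (Sym2 (Fin n))), M.free = [] ∧ M.size ≤ n ^ (k + 2) ∧
        (∀ x, M.Undirected x ↔ HasClique n k x) ∧ (∀ x, M.Directed x ↔ HasClique n k x)) ∧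
      TimeHard ((n : ℝ) ^ (2 - ε)) ((n : ℝ) ^ (c * k)) (HasClique n k)) := by
  obtain ⟨α, hα, hlow⟩ := clique_lower ε hε
  set c : ℝ := min (ε / 42) (min α (1 / 2)) with hc
  have hc0 : 0 < c := lt_min (by positivity) (lt_min hα (by norm_num))
  have hc1 : c ≤ ε / 42 := min_le_left _ _
  have hc2 : c ≤ α := (min_le_right _ _).trans (min_le_left _ _)
  have hc3 : c ≤ 1 / 2 := (min_le_right _ _).trans (min_le_right _ _)
  refine ⟨c, hc0, ?_⟩
  have hlim : Tendsto (fun n : ℕ => (n : ℝ) ^ (ε / 14)) atTop atTop :=
    (tendsto_rpow_atTop (by positivity)).comp tendsto_natCast_atTop_atTop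
  filter_upwards [grid_size_bound hε, elements_le hε, hlim.eventually_ge_atTop 2,
    eventually_ge_atTop 1, hlow] with n hn hel h2 h1 hlow
  have hn1 : (1 : ℝ) ≤ n := by exact_mod_cast h1
  constructor
  · have hg : 2 ≤ gpar ε n := Nat.le_floor (by exact_mod_cast h2)
    obtain ⟨G, hG⟩ : ∃ G, gpar ε n = G + 1 := ⟨gpar ε n - 1, by omega⟩
    have hG1 : 1 ≤ G := by omega
    have hrules := rules_le (ε := ε) h1
    rw [hG] at hel hrules
    have hn' : ∀ L s : ℕ, (L : ℝ) ≤ (n : ℝ) ^ (1 - ε) →
        2 ^ (2 * G + 4) ≤ L * 2 ^ ((Nat.clog 2 (s + 1) + 2) * Nat.clog 2 (s + 1)) →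
        (2 : ℝ) ^ ((n : ℝ) ^ c) ≤ s := by
      intro L s hL h
      refine le_trans ?_ (hn L s hL ?_)
      · exact Real.rpow_le_rpow_of_exponent_le (by norm_num)
          (Real.rpow_le_rpow_of_exponent_le hn1 hc1)
      · rw [hG]
        exact h
    have hk : 2 ≤ ((G + 1) * (G + 1)) ^ 2 := by
      have h3 : 2 ≤ (G + 1) * (G + 1) := by nlinarith
      nlinarith
    obtain ⟨φ, hφ⟩ := exists_gnodes (P := ⌊(n : ℝ) ^ (1 - ε)⌋₊) (G := G)
      (k := ((G + 1) * (G + 1)) ^ 2) (n := n) (le_trans (le_of_eq (by ring)) hel)
    obtain ⟨e, he⟩ := exists_grules (P := ⌊(n : ℝ) ^ (1 - ε)⌋₊) (G := G)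
      (k := ((G + 1) * (G + 1)) ^ 2) (n := n) hk (le_trans (le_of_eq (by ring)) hrules)
    refine ⟨grules φ e, φ .src, φ .tgt, grules_injective φ e hφ he, derive_circuit φ e hφ he,
      ?_, ?_⟩
    · intro l hl s V S hS hrun
      refine hn' (l.sum + 1) s ?_ (grid_directed hG1 rfl _ (gσ e) (derive_iff φ e hφ he)
        (Nat.le_floor hl) S hS hrun)
      refine le_trans ?_ hl
      exact_mod_cast sum_succ_le_prod l
    · intro V N Z hZ hNZ hrun
      exact hn' (Z.card + 1) N.size hZ (grid_lit hG1 rfl _ (gσ e) (derive_iff φ e hφ he) N Z hNZ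
        (Nat.le_floor hZ) hrun)
  · intro k hk1 hk2
    have hk : 2 ≤ k := by
      have h3 : (2 : ℝ) ≤ 1 / c := by
        rw [le_div_iff₀ hc0]
        linarith
      exact_mod_cast h3.trans hk1
    obtain ⟨V, M, hM1, hM2, hM3, hM4⟩ := clique_net n k hk
    refine ⟨⟨V, M, hM1, hM2, hM3, hM4⟩, ?_⟩
    intro N C out hp hC
    have h3 := hlow k ((one_div_le_one_div_of_le hc0 hc2).trans hk1)
      (hk2.trans (Real.rpow_le_rpow_of_exponent_le hn1 hc2)) N C out hp hC
    refine le_trans ?_ h3
    exact Real.rpow_le_rpow_of_exponent_le hn1 (mul_le_mul_of_nonneg_right hc2 (Nat.cast_nonneg _))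

end Pool.Agent.Results.MP_9dcf40_lc.FewNegationsIncomparable
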