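import Pool.Agent.J6H11.Ltf.Fin

/-!
# P, NP and POLYLOGSPACE for monotone devices with many threshold gates at the inputs

The nonuniform devices of P are circuits, those of NP are quantified circuits, and those of
POLYLOGSPACE are networks of quasi-polynomial size, in particular formulas of polylogarithmic depth.
All devices are monotone, but they depend in an arbitrary way on the values of `N ^ (1 / 2 - ε)`
arbitrary linear threshold functions of the variables (the weights are arbitrary real numbers of both
signs), and ask in addition a few (non-monotone) questions.

* `MComp (VB ι) s C` (in `Pool.Agent.H520R2`): the function `C` is computed by a monotone circuit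
  with at most `s` gates. `Shallow d f` (in `Pool.Agent.J6H27.MPH.Pl`): `f` is given by a monotone
  formula of depth `d`. `Level g s k b f` (in `Pool.Agent.J6H27.MPH.Defs`): the predicate `f` is
  of the form `Q₁ u₁ … Q_k u_k : C_{u₁ … u_k}(x) = 1` with alternating quantifiers over strings of
  `g` bits (beginning with `∃` if `b = true` and with `∀` if `b = false`) and with monotone
  circuits `C_{u₁ … u_k}` with at most `s` gates.
* `Net V ι` (in `Pool.Agent.J6H7.Chain.Defs`): a monotone network; its size is the number of the
  labelled wires. `Strategy D l`: a computation which asks adaptively `l.length` rounds of questions,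
  `l[i]` questions in the `i`-th round; each question is whether a device of `D` accepts the input,
  and the final answer is given by a device which depends on all the answers.
* `Thr help` (in `Pool.Agent.J6H11.Ltf.Tr`): every `help x t`, `t < T`, is true if and only if
  `θ t ≤ ∑ v, a t v * x v`, for some real numbers `a t v` and `θ t`.

With `N` linear threshold functions (the variables) every function would be computed, by constant
devices. The functions of `IncomparableWithHelp` (for few predicates of the class `MOD_p ∘ AC⁰`) are
not hard here, because they are composed with majorities of blocks of variables, and majorities are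
linear threshold functions. Here the functions of `FewNegationsIncomparable` and
`PolylogDepthBeyondNP` are composed with conjunctions of `N ^ (1 - o(1))` clauses `x ∨ y`.

Proof. In every block we choose a random clause `j`, where one variable is set to zero and the other
one is free; in the other clauses one variable, chosen at random, is one, and the other one is random.
A linear threshold function depends on the free variable of a block with `M` clauses with probability at
most `2 / √M`: for fixed `j` this is at most `1 / √(m + 1)` by the theorem of Erdős and
Littlewood–Offord, where `m` is the number of the clauses whose random variable has a weight which is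
at least as large as the weight of the free variable, and the average over `j` is `2 / √M`. So all the
linear threshold functions are constant on some subcube, given by a monotone projection which maps
the gadgets to variables.
-/

set_option autoImplicit false

namespace Pool.Agent.Results.MP_9dcf40_lc.IncomparableThresholds

open Filter Pool.Agent.H520R2 Pool.Agent.H520R2.NM Pool.Agent.J6H27.MPH Pool.Agent.J6H7.Chain
  Pool.Agent.J6H11.Ltf

/-- **P and NP are incomparable with POLYLOGSPACE for devices with many threshold gates at the
inputs.** For every `ε > 0` there is a `δ > 0` such that:

1. for all large `N` there is a function `h` of `N` variables which is computed by a monotone circuit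
   with `N ^ 3` gates, such that the size of the networks is at least `2 ^ (N ^ δ)` for every device
   which computes `h` in the following way: first it gets the values `v = help x` of
   `T ≤ N ^ (1 / 2 - ε)` arbitrary linear threshold functions, and then it runs a strategy `S v` over
   directed networks, where the product of the numbers `w + 1` over the rounds of `w` questions is at
   most `N ^ δ`,
2. there are functions `f N` of `N` variables which are given by monotone formulas of depth
   `(log N) ^ 3` for all large `N`, such that for every `c` and all large `N` the function `f N` is
   not computed by a device which first gets such values `v = help x` and then runs a strategy `S v`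
   whose questions are predicates with `k ≤ (log log N) / 2` alternating quantifiers (of either type)
   over strings of `g ≥ 1` bits in front of monotone circuits with `N ^ c` gates, where the product of
   the numbers `w + 1` over the rounds of `w` questions, times the number of questions plus one,
   times `g ^ (k + 1)`, is at most `N ^ δ`. -/
theorem result (ε : ℝ) (hε : 0 < ε) : ∃ δ : ℝ, 0 < δ ∧
    (∀ᶠ N : ℕ in atTop, ∃ h : (Fin N → Bool) → Prop,
      (∃ C : (Fin N → Bool) → Bool, MComp (VB (Fin N)) (N ^ 3) C ∧ ∀ x, h x ↔ C x = true) ∧
      ∀ (T : ℕ) (help : (Fin N → Bool) → Fin T → Bool) (l : (Fin T → Bool) → List ℕ)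
        (V : (Fin T → Bool) → Type) (S : ∀ v, Strategy (Net (V v) (Fin N)) (l v)) (s : ℕ),
        (T : ℝ) ≤ (N : ℝ) ^ (1 / 2 - ε) → Thr help →
        (∀ v, ((((l v).map (· + 1)).prod : ℕ) : ℝ) ≤ (N : ℝ) ^ δ) →
        (∀ v, (S v).All fun d => d.size ≤ s) →
        (∀ x, (S (help x)).run Net.Directed x ↔ h x) → (2 : ℝ) ^ ((N : ℝ) ^ δ) ≤ s) ∧
    ∃ f : ∀ N : ℕ, (Fin N → Bool) → Prop,
      (∀ᶠ N : ℕ in atTop, Shallow (Nat.log 2 N ^ 3) (f N)) ∧
      ∀ c : ℕ, ∀ᶠ N : ℕ in atTop, ∀ (T : ℕ) (help : (Fin N → Bool) → Fin T → Bool) (k g : ℕ)
        (l : (Fin T → Bool) → List ℕ) (S : ∀ v, Strategy
          {d : (Fin N → Bool) → Prop // Level g (N ^ c) k true d ∨ Level g (N ^ c) k false d} (l v)),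
        (T : ℝ) ≤ (N : ℝ) ^ (1 / 2 - ε) → Thr help →
        2 * k ≤ Nat.log 2 (Nat.log 2 N) → 1 ≤ g →
        (∀ v, ((((l v).map (· + 1)).prod * ((l v).sum + 1) * g ^ (k + 1) : ℕ) : ℝ) ≤
          (N : ℝ) ^ δ) →
        ¬ ∀ x, (S (help x)).run (fun d x => d.1 x) x ↔ f N x :=
  incomp_thr ε hε

end Pool.Agent.Results.MP_9dcf40_lc.IncomparableThresholds
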