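import Pool.Agent.J6H11.Hlp.Incomp

/-!
# P, NP and POLYLOGSPACE for monotone devices with many non-monotone inputs

The nonuniform devices of P are circuits, those of NP are quantified circuits, and those of
POLYLOGSPACE are networks of quasi-polynomial size, in particular formulas of polylogarithmic depth.
All devices are monotone, but they depend in an arbitrary way on the values of `N ^ (1 - ε)`
arbitrary non-monotone predicates of the class `MOD_p ∘ AC⁰`, and ask in addition a few
(non-monotone) questions.

* `MComp (VB ι) s C` (in `Pool.Agent.H520R2`): the function `C` is computed by a monotone circuit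
  with at most `s` gates. `Shallow d f` (in `Pool.Agent.J6H27.MPH.Pl`): `f` is given by a monotone
  formula of depth `d`. `Level g s k b f` (in `Pool.Agent.J6H27.MPH.Defs`): the predicate `f` is
  of the form `Q₁ u₁ … Q_k u_k : C_{u₁ … u_k}(x) = 1` with alternating quantifiers over strings of
  `g` bits (beginning with `∃` if `b = true` and with `∀` if `b = false`) and with monotone
  circuits `C_{u₁ … u_k}` with at most `s` gates.
* `Net V ι` (in `Pool.Agent.J6H7.Chain.Defs`): a monotone network; its size is the number of the
  labelled wires. `Strategy D l`: a computation which asks adaptively `l.length` rounds of questions,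
  `l[i]` questions in the `i`-th round; each question is whether a device of `D` accepts the input,
  and the final answer is given by a device which depends on all the answers.
* `Help a help` (in `Pool.Agent.J6H11.Hlp.Dev`): the numbers `help x j`, `j < T`, modulo a prime `p`
  are sums with arbitrary weights of nodes of depth at most `a` of a circuit with at most `N ^ a`
  gates, which are negations and conjunctions and disjunctions of arbitrary fan-in. For instance
  `help` may consist of `T` arbitrary parities (of any number of variables), or of parities of
  polynomially many conjunctions of literals, or of `T` of the variables. With `T = N` (the variables)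
  every function would be computed, by constant devices.

Proof. The functions are those of `FewNegationsIncomparable` and `PolylogDepthBeyondNP` of the
majorities of `N ^ δ` blocks of variables. For each `help` there is a monotone projection which keeps
these functions and makes all the numbers `help x j` constant: a random restriction (switching lemma)
turns them into polynomials of constant degree, and the theorem of Chevalley and Warning gives,
block after block, a nonempty set of free variables such that the polynomials do not change if its
values are changed to one (theorem `transferH`).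
-/

set_option autoImplicit false

namespace Pool.Agent.Results.MP_9dcf40_lc.IncomparableWithHelp

open Filter Pool.Agent.H520R2 Pool.Agent.H520R2.NM Pool.Agent.J6H27.MPH Pool.Agent.J6H7.Chain
  Pool.Agent.J6H11.Hlp

/-- **P and NP are incomparable with POLYLOGSPACE for devices with many non-monotone inputs.** For
every `ε > 0` and every `a` there is a `δ > 0` such that:

1. for all large `N` there is a function `h` of `N` variables which is computed by a monotone circuit
   with `N ^ 3` gates, such that the size of the networks is at least `2 ^ (N ^ δ)` for every device
   which computes `h` in the following way: first it gets the values `v = help x` of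
   `T ≤ N ^ (1 - ε)` arbitrary non-monotone predicates of the class `MOD_p ∘ AC⁰` (depth `a`, at most
   `N ^ a` gates, `p ≤ N ^ δ` prime), and then it runs a strategy `S v` over directed networks, where
   the product of the numbers `w + 1` over the rounds of `w` questions is at most `N ^ δ`,
2. there are functions `f N` of `N` variables which are given by monotone formulas of depth
   `(log N) ^ 3` for all large `N`, such that for every `c` and all large `N` the function `f N` is
   not computed by a device which first gets such values `v = help x` and then runs a strategy `S v`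
   whose questions are predicates with `k ≤ (log log N) / 2` alternating quantifiers (of either type)
   over strings of `g ≥ 1` bits in front of monotone circuits with `N ^ c` gates, where the product of
   the numbers `w + 1` over the rounds of `w` questions, times the number of questions plus one,
   times `g ^ (k + 1)`, is at most `N ^ δ`. -/
theorem result (ε : ℝ) (hε : 0 < ε) (a : ℕ) : ∃ δ : ℝ, 0 < δ ∧
    (∀ᶠ N : ℕ in atTop, ∃ h : (Fin N → Bool) → Prop,
      (∃ C : (Fin N → Bool) → Bool, MComp (VB (Fin N)) (N ^ 3) C ∧ ∀ x, h x ↔ C x = true) ∧
      ∀ (p : ℕ) [Fact p.Prime] (T : ℕ) (help : (Fin N → Bool) → Fin T → ZMod p)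
        (l : (Fin T → ZMod p) → List ℕ) (V : (Fin T → ZMod p) → Type)
        (S : ∀ v, Strategy (Net (V v) (Fin N)) (l v)) (s : ℕ),
        (p : ℝ) ≤ (N : ℝ) ^ δ → (T : ℝ) ≤ (N : ℝ) ^ (1 - ε) → Help a help →
        (∀ v, ((((l v).map (· + 1)).prod : ℕ) : ℝ) ≤ (N : ℝ) ^ δ) →
        (∀ v, (S v).All fun d => d.size ≤ s) →
        (∀ x, (S (help x)).run Net.Directed x ↔ h x) → (2 : ℝ) ^ ((N : ℝ) ^ δ) ≤ s) ∧
    ∃ f : ∀ N : ℕ, (Fin N → Bool) → Prop,
      (∀ᶠ N : ℕ in atTop, Shallow (Nat.log 2 N ^ 3) (f N)) ∧
      ∀ c : ℕ, ∀ᶠ N : ℕ in atTop, ∀ (p : ℕ) [Fact p.Prime] (T : ℕ)
        (help : (Fin N → Bool) → Fin T → ZMod p) (k g : ℕ) (l : (Fin T → ZMod p) → List ℕ)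
        (S : ∀ v, Strategy
          {d : (Fin N → Bool) → Prop // Level g (N ^ c) k true d ∨ Level g (N ^ c) k false d} (l v)),
        (p : ℝ) ≤ (N : ℝ) ^ δ → (T : ℝ) ≤ (N : ℝ) ^ (1 - ε) → Help a help →
        2 * k ≤ Nat.log 2 (Nat.log 2 N) → 1 ≤ g →
        (∀ v, ((((l v).map (· + 1)).prod * ((l v).sum + 1) * g ^ (k + 1) : ℕ) : ℝ) ≤
          (N : ℝ) ^ δ) →
        ¬ ∀ x, (S (help x)).run (fun d x => d.1 x) x ↔ f N x := by
  obtain ⟨δ1, h1, H1⟩ := space_help ε hε a
  obtain ⟨δ2, h2, H2⟩ := beyond_help ε hε a
  have h3 : 0 < min δ1 δ2 := lt_min h1 h2
  exact ⟨min δ1 δ2, h3, H1 _ h3 (min_le_left _ _), H2 _ h3 (min_le_right _ _)⟩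

end Pool.Agent.Results.MP_9dcf40_lc.IncomparableWithHelp
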