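import Pool.Agent.J6H27.MPH.Pl3

/-!
# Polylogarithmic depth beyond nondeterministic guesses

`Level g s k b f` (in `Pool.Agent.J6H27.MPH.Defs`): the predicate `f` is of the form
`Q₁ u₁ … Q_k u_k : C_{u₁ … u_k}(x) = 1` with alternating quantifiers over strings of `g` bits
(beginning with `∃` if `b = true` and with `∀` if `b = false`) and with monotone circuits
`C_{u₁ … u_k}` with at most `s` gates. `Shallow d f` (in `Pool.Agent.J6H27.MPH.Pl`): `f` is given by
a monotone formula of depth `d`. `Strategy D l` (in `Pool.Agent.J6H7.Chain.Defs`): a computation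
which asks adaptively `l.length` rounds of questions, `l[i]` questions in the `i`-th round; each
question is whether a device of `D` accepts the input, and the final answer is given by a device
which depends on all the answers.
-/

set_option autoImplicit false

namespace Pool.Agent.Results.MP_9dcf40_lc.PolylogDepthBeyondNP

open Filter Pool.Agent.J6H27.MPH Pool.Agent.J6H7.Chain

/-- **POLYLOGSPACE is not contained in NP for monotone verifiers.** There is a family of functions
`f N` of `N` variables which are given by monotone formulas of depth `(log N) ^ 3`, and also by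
`log log N + 1` alternating quantifiers over strings of `(log N) ^ 2` bits in front of monotone
circuits with `(log N) ^ 2` gates, such that for all `c` and `ε > 0`, for all large `N` and for all
`k ≤ log log N` and `g ≥ 1`:

* `f N` is not given by `k` alternating quantifiers (of either type) over strings of `g` bits in
  front of monotone circuits with `N ^ c` gates, if `g ^ k ≤ N ^ (1 - ε)`; in particular (`k = 1`)
  it is not in NP with `N ^ (1 - ε)` guessed bits,
* `f N` is not computed by a strategy with questions to such predicates, if the product of the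
  numbers `w + 1` over the rounds of `w` questions, times the number of questions plus one, times
  `g ^ (k + 1)`, is at most `N ^ (1 - ε)`.

With `N` guessed bits every monotone function is in NP. -/
theorem result :
    (∃ f : ∀ N : ℕ, (Fin N → Bool) → Prop,
      (∀ᶠ N : ℕ in atTop, Shallow (Nat.log 2 N ^ 3) (f N) ∧
        Level (Nat.log 2 N ^ 2) (Nat.log 2 N ^ 2) (Nat.log 2 (Nat.log 2 N) + 1) true (f N)) ∧
      ∀ (c : ℕ) (ε : ℝ), 0 < ε → ∀ᶠ N : ℕ in atTop, ∀ k g : ℕ,
        k ≤ Nat.log 2 (Nat.log 2 N) → 1 ≤ g →
        (((g ^ k : ℕ) : ℝ) ≤ (N : ℝ) ^ (1 - ε) →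
          ¬ Level g (N ^ c) k true (f N) ∧ ¬ Level g (N ^ c) k false (f N)) ∧
        ∀ (l : List ℕ) (S : Strategy {d : (Fin N → Bool) → Prop //
          Level g (N ^ c) k true d ∨ Level g (N ^ c) k false d} l),
          (((l.map (· + 1)).prod * (l.sum + 1) * g ^ (k + 1) : ℕ) : ℝ) ≤ (N : ℝ) ^ (1 - ε) →
          ¬ ∀ x, S.run (fun d x => d.1 x) x ↔ f N x) ∧
    ∀ (N : ℕ) (h : (Fin N → Bool) → Prop), (∀ x y, x ≤ y → h x → h y) → Level N N 1 true h :=
  ⟨polylog_beyond, fun _ h hm => level_all h hm⟩

end Pool.Agent.Results.MP_9dcf40_lc.PolylogDepthBeyondNP
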